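import Pool.Agent.H675R4.HL.Hall

/-!
# Sylow subloops in finite automorphic loops which are abelian-by-group

Let `Q` be a finite automorphic loop with a homomorphism `f` to an arbitrary group whose kernel is an
abelian group. Then `Q` has a Sylow `p`-subloop for every prime `p`.

The preimage of a Sylow `p`-subgroup of the quotient is an extension of an abelian group by a
`p`-group, to which the theorem on Hall subloops of extensions of abelian groups by solvable groups
applies: there the associator is shown to vanish in the minimal case by an averaging argument.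
-/

set_option autoImplicit false

namespace Pool.Agent.Results.MP_b7c14b_al.AbelianByGroup

open H675HL

theorem result :
    ∀ (Q : Type) [Fintype Q] [Mul Q] (e : Q),
      (∀ a : Q, e * a = a ∧ a * e = a) →
      (∀ a b : Q, ∃! x : Q, a * x = b) →
      (∀ a b : Q, ∃! y : Q, y * a = b) →
      (∀ x u v z₁ z₂ z₃ : Q, z₁ * x = x * u → z₂ * x = x * v →
          z₃ * x = x * (u * v) → z₃ = z₁ * z₂) →
      (∀ x y u v z₁ z₂ z₃ : Q, (y * x) * z₁ = y * (x * u) →
          (y * x) * z₂ = y * (x * v) →
          (y * x) * z₃ = y * (x * (u * v)) → z₃ = z₁ * z₂) →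
      (∀ x y u v z₁ z₂ z₃ : Q, z₁ * (x * y) = (u * x) * y →
          z₂ * (x * y) = (v * x) * y →
          z₃ * (x * y) = ((u * v) * x) * y → z₃ = z₁ * z₂) →
      ∀ (K : Type) [Group K] (f : Q → K),
        (∀ x y, f (x * y) = f x * f y) →
        (∀ x y, f x = 1 → f y = 1 → x * y = y * x) →
        (∀ x y z, f x = 1 → f y = 1 → f z = 1 → (x * y) * z = x * (y * z)) →
      ∀ p : ℕ, p.Prime → p ∣ Fintype.card Q →
        ∃ S : Finset Q, e ∈ S ∧
          (∀ a ∈ S, ∀ b ∈ S, a * b ∈ S) ∧
          (∀ a b x : Q, a ∈ S → b ∈ S → a * x = b → x ∈ S) ∧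
          (∀ a b y : Q, a ∈ S → b ∈ S → y * a = b → y ∈ S) ∧
          S.card = p ^ (Fintype.card Q).factorization p := by
  intro Q _ hMul e h1 hL hR haT haL haR K _ f hf hc ha p hp _
  classical
  let A : AL Q :=
    { mul := hMul.mul
      one := e
      one_mul' := fun a => (h1 a).1
      mul_one' := fun a => (h1 a).2
      bijL := fun a => ⟨fun x y h => (hL a (a * y)).unique h rfl, fun b => (hL a b).exists⟩
      bijR := fun a => ⟨fun x y h => (hR a (y * a)).unique h rfl, fun b => (hR a b).exists⟩
      autL := by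
        intro x y u v a b h2 h3
        obtain ⟨z, hz⟩ := (hL (x * y) (x * (y * (u * v)))).exists
        rw [← hz]
        exact congrArg (fun w => (x * y) * w) (haL y x u v a b z h2 h3 hz).symm
      autR := by
        intro x y u v a b h2 h3
        obtain ⟨z, hz⟩ := (hR (y * x) (((u * v) * y) * x)).exists
        rw [← hz]
        exact congrArg (fun w => w * (y * x)) (haR y x u v a b z h2 h3 hz).symm
      autT := by
        intro x u v a b h2 h3
        obtain ⟨z, hz⟩ := (hR x (x * (u * v))).exists
        rw [← hz]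
        exact congrArg (fun w => w * x) (haT x u v a b z h2 h3 hz).symm }
  obtain ⟨H, ⟨hH1, hH2⟩, hcard⟩ := sylow Q f ⟨hf, hc, ha⟩ p hp
  have hmul : ∀ a ∈ H, ∀ b ∈ H, a * b ∈ H := hH2
  refine ⟨H.toFinset, Set.mem_toFinset.2 hH1, ?_, ?_, ?_, ?_⟩
  · intro a ha b hb
    exact Set.mem_toFinset.2 (hmul a (Set.mem_toFinset.1 ha) b (Set.mem_toFinset.1 hb))
  · intro a b x ha hb hx
    rw [Set.mem_toFinset] at ha hb ⊢
    have hinj : Function.Injective (fun y : H => (⟨a * y.1, hmul a ha y.1 y.2⟩ : H)) := by
      intro y z h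
      exact Subtype.ext ((hL a (a * z.1)).unique (congrArg Subtype.val h) rfl)
    obtain ⟨y, hy⟩ := (Finite.injective_iff_surjective.1 hinj) ⟨b, hb⟩
    have h2 : a * y.1 = b := congrArg Subtype.val hy
    rw [(hL a b).unique hx h2]
    exact y.2
  · intro a b x ha hb hx
    rw [Set.mem_toFinset] at ha hb ⊢
    have hinj : Function.Injective (fun y : H => (⟨y.1 * a, hmul y.1 y.2 a ha⟩ : H)) := by
      intro y z h
      exact Subtype.ext ((hR a (z.1 * a)).unique (congrArg Subtype.val h) rfl)
    obtain ⟨y, hy⟩ := (Finite.injective_iff_surjective.1 hinj) ⟨b, hb⟩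
    have h2 : y.1 * a = b := congrArg Subtype.val hy
    rw [(hR a b).unique hx h2]
    exact y.2
  · rw [Set.toFinset_card, ← Nat.card_eq_fintype_card, ← Nat.card_eq_fintype_card (α := Q)]
    exact hcard

end Pool.Agent.Results.MP_b7c14b_al.AbelianByGroup
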